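import Pool.Agent.H730R2.LD.Meas
import Pool.Agent.H730R2.LU.Fin

set_option autoImplicit false

namespace Pool.Agent.Results.MP_173de9_an.LOneSharp

open MeasureTheory

/-- The local discrepancy `∏ x_j - (1/m) Σ_μ χ_{[0,x]}(ξ^μ)` of `m` points `ξ` at `x`. -/
noncomputable def localDisc {m d : ℕ} (ξ : Fin m → Fin d → ℝ) (x : Fin d → ℝ) : ℝ :=
  ∏ j, x j - (1 / (m:ℝ)) * ∑ μ : Fin m, (Set.Icc (0 : Fin d → ℝ) x).indicator (fun _ => (1:ℝ)) (ξ μ)

/-- `D(ξ,m,d)_q`: the `L_q` norm of the local discrepancy over `[0,1]^d`. -/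
noncomputable def starDisc (q : ENNReal) {m d : ℕ} (ξ : Fin m → Fin d → ℝ) : ENNReal :=
  eLpNorm (localDisc ξ) q (volume.restrict (Set.Icc (0 : Fin d → ℝ) 1))

/-- `D(m,d)_q`: the infimum over all `m`-point sets (repetitions allowed) in `[0,1]^d`. -/
noncomputable def optDisc (q : ENNReal) (m d : ℕ) : ENNReal :=
  ⨅ (ξ : Fin m → Fin d → ℝ) (_ : ∀ μ, ξ μ ∈ Set.Icc (0 : Fin d → ℝ) 1), starDisc q ξ

theorem disc_eq {m d : ℕ} (hm : 0 < m) (ξ : Fin m → Fin d → ℝ)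
    (hξ : ∀ μ, ξ μ ∈ Set.Icc (0 : Fin d → ℝ) 1) (x : Fin d → ℝ) :
    |H736R2.Lone.disc Finset.univ (fun _ => 1) ξ (m : ℝ) x| = m * |localDisc ξ x| := by
  classical
  have hm0 : (0 : ℝ) < m := by exact_mod_cast hm
  rw [← abs_of_pos hm0, ← abs_mul, abs_of_pos hm0, ← abs_neg]
  congr 1
  unfold localDisc H736R2.Lone.disc
  have : ∀ μ, (Set.Icc (0 : Fin d → ℝ) x).indicator (fun _ => (1:ℝ)) (ξ μ) =
      if ∀ i, ξ μ i ≤ x i then (1 : ℝ) else 0 := by
    intro μ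
    have hiff : ξ μ ∈ Set.Icc (0 : Fin d → ℝ) x ↔ ∀ i, ξ μ i ≤ x i :=
      ⟨fun h => h.2, fun h => ⟨(hξ μ).1, h⟩⟩
    by_cases hx : ∀ i, ξ μ i ≤ x i
    · rw [if_pos hx, Set.indicator_of_mem (hiff.2 hx)]
    · rw [if_neg hx, Set.indicator_of_notMem (fun h => hx (hiff.1 h))]
  simp only [this]
  field_simp
  ring

theorem measurable_localDisc {m d : ℕ} (ξ : Fin m → Fin d → ℝ) : Measurable (localDisc ξ) := by
  classical
  unfold localDisc
  apply Measurable.sub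
  · apply Finset.measurable_fun_prod
    intro i _
    exact measurable_pi_apply i
  · apply Measurable.const_mul
    apply Finset.measurable_fun_sum
    intro μ _
    have h : (fun x : Fin d → ℝ => (Set.Icc (0 : Fin d → ℝ) x).indicator (fun _ => (1:ℝ)) (ξ μ)) =
        (fun x => if (0 : Fin d → ℝ) ≤ ξ μ ∧ ∀ i, ξ μ i ≤ x i then (1 : ℝ) else 0) := by
      funext x
      by_cases hx : (0 : Fin d → ℝ) ≤ ξ μ ∧ ∀ i, ξ μ i ≤ x i
      · rw [if_pos hx, Set.indicator_of_mem]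
        exact ⟨hx.1, hx.2⟩
      · rw [if_neg hx, Set.indicator_of_notMem]
        intro h
        exact hx ⟨h.1, h.2⟩
    rw [h]
    apply Measurable.ite _ measurable_const measurable_const
    have : {x : Fin d → ℝ | (0 : Fin d → ℝ) ≤ ξ μ ∧ ∀ i, ξ μ i ≤ x i} =
        {_x : Fin d → ℝ | (0 : Fin d → ℝ) ≤ ξ μ} ∩ ⋂ i, {x : Fin d → ℝ | ξ μ i ≤ x i} := by
      ext x
      simp
    rw [this]
    apply MeasurableSet.inter (MeasurableSet.const _)
    exact MeasurableSet.iInter fun i => measurableSet_le measurable_const (measurable_pi_apply i)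

/-- The lower bounds: for every `d ≥ 1` there is `c > 0` such that for all `m ≥ 2`
(1) `D(m,d)_1 ≥ c (ln m)^((d-1)/2) / m`, and (2) for every `m`-point set `ξ` in `[0,1]^d` the local
discrepancy is at least `c (ln m)^((d-1)/2) / m` in absolute value on a set of measure `≥ c`. -/
theorem lower (d : ℕ) (hd : 1 ≤ d) : ∃ c : ℝ, 0 < c ∧ ∀ m : ℕ, 2 ≤ m →
    ENNReal.ofReal (c * (Real.log m) ^ (((d : ℝ) - 1) / 2) / m) ≤ optDisc 1 m d ∧
    ∀ ξ : Fin m → Fin d → ℝ, (∀ μ, ξ μ ∈ Set.Icc (0 : Fin d → ℝ) 1) →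
      ENNReal.ofReal c ≤ volume {x : Fin d → ℝ | x ∈ Set.Icc (0 : Fin d → ℝ) 1 ∧
        c * (Real.log m) ^ (((d : ℝ) - 1) / 2) / m ≤ |localDisc ξ x|} := by
  obtain ⟨ε, hε, c, hc, H⟩ := H730R2.LD.measure_sharp d hd 1
  -- bound in measure with the constants `ε`, `c`
  have key : ∀ m : ℕ, 2 ≤ m → ∀ ξ : Fin m → Fin d → ℝ,
      (∀ μ, ξ μ ∈ Set.Icc (0 : Fin d → ℝ) 1) →
      ENNReal.ofReal ε ≤ volume {x : Fin d → ℝ | x ∈ Set.Icc (0 : Fin d → ℝ) 1 ∧
        c * (Real.log m) ^ (((d : ℝ) - 1) / 2) / m ≤ |localDisc ξ x|} := by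
    intro m hm ξ hξ
    have hm0 : (0 : ℝ) < m := by exact_mod_cast (by omega : 0 < m)
    have h := H m (by exact_mod_cast hm) (Fin m) Finset.univ (fun _ => 1) ξ (by simp)
    refine h.trans (le_of_eq ?_)
    congr 1
    ext x
    simp only [Set.mem_ofPred_eq, disc_eq (by omega : 0 < m) ξ hξ x]
    rw [div_le_iff₀' hm0]
  refine ⟨min ε (min c (ε * c)), by positivity, fun m hm => ?_⟩
  have hm0 : (0 : ℝ) < m := by exact_mod_cast (by omega : 0 < m)
  have hm2 : (2 : ℝ) ≤ m := by exact_mod_cast hm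
  have hlog : 0 ≤ Real.log m := Real.log_nonneg (by linarith)
  have hL : 0 ≤ (Real.log m) ^ (((d : ℝ) - 1) / 2) := Real.rpow_nonneg hlog _
  constructor
  · unfold optDisc
    refine le_iInf₂ fun ξ hξ => ?_
    unfold starDisc
    rw [eLpNorm_one_eq_lintegral_enorm]
    set θ : ℝ := c * (Real.log m) ^ (((d : ℝ) - 1) / 2) / m with hθ
    have hθ0 : 0 ≤ θ := by positivity
    set A : Set (Fin d → ℝ) := {x | x ∈ Set.Icc (0 : Fin d → ℝ) 1 ∧ θ ≤ |localDisc ξ x|} with hA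
    have hAm : MeasurableSet A :=
      measurableSet_Icc.inter (measurableSet_le measurable_const (measurable_localDisc ξ).abs)
    calc ENNReal.ofReal (min ε (min c (ε * c)) * (Real.log m) ^ (((d : ℝ) - 1) / 2) / m)
        ≤ ENNReal.ofReal (θ * ε) := by
          apply ENNReal.ofReal_le_ofReal
          rw [hθ]
          have h1 : min ε (min c (ε * c)) ≤ ε * c := (min_le_right _ _).trans (min_le_right _ _)
          calc min ε (min c (ε * c)) * (Real.log m) ^ (((d : ℝ) - 1) / 2) / m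
              ≤ (ε * c) * (Real.log m) ^ (((d : ℝ) - 1) / 2) / m := by gcongr
            _ = _ := by ring
      _ = ENNReal.ofReal θ * ENNReal.ofReal ε := ENNReal.ofReal_mul hθ0
      _ ≤ ENNReal.ofReal θ * volume A := by gcongr; exact key m hm ξ hξ
      _ = ∫⁻ _ in A, ENNReal.ofReal θ := by rw [setLIntegral_const]
      _ ≤ ∫⁻ x in A, ‖localDisc ξ x‖ₑ := by
          apply setLIntegral_mono' hAm
          intro x hx
          rw [← ofReal_norm, Real.norm_eq_abs]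
          exact ENNReal.ofReal_le_ofReal hx.2
      _ ≤ ∫⁻ x in Set.Icc (0 : Fin d → ℝ) 1, ‖localDisc ξ x‖ₑ :=
          lintegral_mono_set fun x hx => hx.1
  · intro ξ hξ
    refine le_trans (ENNReal.ofReal_le_ofReal (min_le_left _ _)) ((key m hm ξ hξ).trans ?_)
    apply measure_mono
    rintro x ⟨hx1, hx2⟩
    refine ⟨hx1, le_trans ?_ hx2⟩
    have h1 : min ε (min c (ε * c)) ≤ c := (min_le_right _ _).trans (min_le_left _ _)
    gcongr

/-- The upper bound: `D(m,d)_2 ≤ C (ln m)^((d-1)/2) / m` for all `m ≥ 2` (randomly shifted digital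
nets over `F_p`, `p ≥ d` prime). -/
theorem upper (d : ℕ) (hd : 1 ≤ d) : ∃ C : ℝ, 0 < C ∧ ∀ m : ℕ, 2 ≤ m →
    optDisc 2 m d ≤ ENNReal.ofReal (C * (Real.log m) ^ (((d : ℝ) - 1) / 2) / m) := by
  obtain ⟨C, hC, H⟩ := H730R2.LU.upper_two d hd
  refine ⟨C, hC, fun m hm => ?_⟩
  obtain ⟨ξ, hξ, hb⟩ := H m hm
  exact (iInf₂_le ξ hξ).trans hb

theorem isProb (d : ℕ) : IsProbabilityMeasure
    (volume.restrict (Set.Icc (0 : Fin d → ℝ) 1)) := by
  constructor
  rw [Measure.restrict_apply_univ, Real.volume_Icc_pi]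
  simp

/-- `D(m,d)_q` is monotone in `q`. -/
theorem optDisc_mono {q r : ENNReal} (h : q ≤ r) (m d : ℕ) : optDisc q m d ≤ optDisc r m d := by
  unfold optDisc starDisc
  have hp := isProb d
  refine iInf₂_mono fun ξ _ => ?_
  exact eLpNorm_le_eLpNorm_of_exponent_le h (measurable_localDisc ξ).aestronglyMeasurable

/-- For every `d ≥ 1` there are `c, C > 0` such that for all `m ≥ 2` and all `q ∈ [1,2]`
`c (ln m)^((d-1)/2) / m ≤ D(m,d)_q ≤ C (ln m)^((d-1)/2) / m`; for `q = 1` this is the answer to Q2. -/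
theorem result (d : ℕ) (hd : 1 ≤ d) : ∃ c C : ℝ, 0 < c ∧ 0 < C ∧ ∀ m : ℕ, 2 ≤ m →
    ∀ q : ENNReal, 1 ≤ q → q ≤ 2 →
      ENNReal.ofReal (c * (Real.log m) ^ (((d : ℝ) - 1) / 2) / m) ≤ optDisc q m d ∧
      optDisc q m d ≤ ENNReal.ofReal (C * (Real.log m) ^ (((d : ℝ) - 1) / 2) / m) := by
  obtain ⟨c, hc, hl⟩ := lower d hd
  obtain ⟨C, hC, hu⟩ := upper d hd
  refine ⟨c, C, hc, hC, fun m hm q h1 h2 => ⟨?_, ?_⟩⟩
  · exact (hl m hm).1.trans (optDisc_mono h1 m d)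
  · exact (optDisc_mono h2 m d).trans (hu m hm)

end Pool.Agent.Results.MP_173de9_an.LOneSharp
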