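import Pool.Agent.H397R2.SD.A
import Pool.Agent.H397R2.SD.Fg
import Pool.Agent.H397R2.SD.Z
import Pool.Agent.H397R2.SD.Np
import Pool.Agent.H736R2.Lone.Final

set_option autoImplicit false

/-!
# A lower bound for the star discrepancy in dimension three

`D(m,3)_∞ ≥ c (ln m)^{9/8} / ((ln ln m)^{1/8} m)` for all `m ≥ 3`.
-/

namespace Pool.Agent.Results.MP_173de9_an.StarDiscLowerThree

open MeasureTheory

/-- The local discrepancy `∏ x_j - (1/m) Σ_μ χ_{[0,x]}(ξ^μ)` of `m` points `ξ` at `x`. -/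
noncomputable def localDisc {m d : ℕ} (ξ : Fin m → Fin d → ℝ) (x : Fin d → ℝ) : ℝ :=
  ∏ j, x j - (1 / (m:ℝ)) * ∑ μ : Fin m, (Set.Icc (0 : Fin d → ℝ) x).indicator (fun _ => (1:ℝ)) (ξ μ)

/-- `D(ξ,m,d)_q`: the `L_q` norm of the local discrepancy over `[0,1]^d`. -/
noncomputable def starDisc (q : ENNReal) {m d : ℕ} (ξ : Fin m → Fin d → ℝ) : ENNReal :=
  eLpNorm (localDisc ξ) q (volume.restrict (Set.Icc (0 : Fin d → ℝ) 1))

/-- `D(m,d)_q`: the infimum over all `m`-point sets (repetitions allowed) in `[0,1]^d`. -/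
noncomputable def optDisc (q : ENNReal) (m d : ℕ) : ENNReal :=
  ⨅ (ξ : Fin m → Fin d → ℝ) (_ : ∀ μ, ξ μ ∈ Set.Icc (0 : Fin d → ℝ) 1), starDisc q ξ

/-- the `L_1` norm is at most the `L_∞` norm -/
theorem l1_le_sup {m d : ℕ} (ξ : Fin m → Fin d → ℝ) :
    ∫⁻ x in Set.Icc (0 : Fin d → ℝ) 1, ‖localDisc ξ x‖ₑ ≤ starDisc ⊤ ξ := by
  unfold starDisc
  rw [eLpNorm_exponent_top]
  have hvol : (volume.restrict (Set.Icc (0 : Fin d → ℝ) 1)) Set.univ = 1 := by
    rw [Measure.restrict_apply MeasurableSet.univ, Set.univ_inter, Real.volume_Icc_pi]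
    simp
  calc ∫⁻ x in Set.Icc (0 : Fin d → ℝ) 1, ‖localDisc ξ x‖ₑ ≤
      ∫⁻ _ in Set.Icc (0 : Fin d → ℝ) 1,
        eLpNormEssSup (localDisc ξ) (volume.restrict (Set.Icc (0 : Fin d → ℝ) 1)) :=
        lintegral_mono_ae (enorm_ae_le_eLpNormEssSup _ _)
    _ = _ := by rw [lintegral_const, hvol, mul_one]

/-- trivial bound, used for small `m` -/
theorem small (m : ℕ) (hm : 1 ≤ m) (ξ : Fin m → Fin 3 → ℝ)
    (hξ : ∀ μ, ξ μ ∈ Set.Icc (0 : Fin 3 → ℝ) 1) :
    ENNReal.ofReal (1 / (256 * (m : ℝ) ^ 2)) ≤ starDisc ⊤ ξ := by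
  have hm0 : (0 : ℝ) < m := by exact_mod_cast (by omega : 0 < m)
  refine le_trans ?_ (l1_le_sup ξ)
  have h := H736R2.Lone.small_bound 2 m hm (Fin m) Finset.univ ξ
  have hpt : ∀ x : Fin 3 → ℝ, ENNReal.ofReal |H736R2.Lone.disc Finset.univ (fun _ => 1) ξ (m : ℝ) x| =
      ENNReal.ofReal m * ‖localDisc ξ x‖ₑ := by
    intro x
    classical
    rw [← ofReal_norm, ← ENNReal.ofReal_mul hm0.le, Real.norm_eq_abs]
    congr 1
    rw [← abs_of_pos hm0, ← abs_mul, abs_of_pos hm0, ← abs_neg]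
    congr 1
    unfold localDisc H736R2.Lone.disc
    have : ∀ μ, (Set.Icc (0 : Fin 3 → ℝ) x).indicator (fun _ => (1:ℝ)) (ξ μ) =
        if ∀ i, ξ μ i ≤ x i then (1 : ℝ) else 0 := by
      intro μ
      have hiff : ξ μ ∈ Set.Icc (0 : Fin 3 → ℝ) x ↔ ∀ i, ξ μ i ≤ x i :=
        ⟨fun h => h.2, fun h => ⟨(hξ μ).1, h⟩⟩
      by_cases hx : ∀ i, ξ μ i ≤ x i
      · rw [if_pos hx, Set.indicator_of_mem (hiff.2 hx)]
      · rw [if_neg hx, Set.indicator_of_notMem (fun h => hx (hiff.1 h))]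
    simp only [this]
    field_simp
    ring
  simp only [show (2 : ℕ) + 1 = 3 from rfl] at h
  simp only [hpt] at h
  rw [lintegral_const_mul' _ _ ENNReal.ofReal_ne_top] at h
  have hmne : ENNReal.ofReal m ≠ 0 := by
    rw [Ne, ENNReal.ofReal_eq_zero, not_le]; exact hm0
  calc ENNReal.ofReal (1 / (256 * (m : ℝ) ^ 2)) = ENNReal.ofReal (1 / (4 * 4 ^ 3 * m) / m) := by
        congr 1
        field_simp
        norm_num
    _ = ENNReal.ofReal (1 / (4 * 4 ^ 3 * m)) / ENNReal.ofReal m := by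
        rw [ENNReal.ofReal_div_of_pos hm0]
    _ ≤ (ENNReal.ofReal m * ∫⁻ x in Set.Icc (0 : Fin 3 → ℝ) 1, ‖localDisc ξ x‖ₑ) /
          ENNReal.ofReal m := by gcongr
    _ = _ := by
        rw [mul_comm, ENNReal.mul_div_cancel_right hmne ENNReal.ofReal_ne_top]

/-- There is `c > 0` with `D(m,3)_∞ ≥ c (ln m)^{9/8} (ln ln m)^{-1/8} / m` for all `m ≥ 3`. -/
theorem result : ∃ c : ℝ, 0 < c ∧ ∀ m : ℕ, 3 ≤ m →
    ENNReal.ofReal (c * (Real.log m) ^ (9 / 8 : ℝ) / (Real.log (Real.log m)) ^ (1 / 8 : ℝ) / m) ≤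
      optDisc ⊤ m 3 := by
  obtain ⟨c, hc, m₀, hm₀, H⟩ := H397R2.SD.params
  set g : ℕ → ℝ := fun m =>
    (Real.log m) ^ (9 / 8 : ℝ) / (Real.log (Real.log m)) ^ (1 / 8 : ℝ) with hg
  set B : ℝ := 1 + ∑ m ∈ Finset.range m₀, |g m| * (256 * (m : ℝ)) with hB
  have hsum0 : ∀ m : ℕ, 0 ≤ |g m| * (256 * (m : ℝ)) := fun m => by positivity
  have hB1 : 1 ≤ B := by
    have := Finset.sum_nonneg (s := Finset.range m₀) (fun m _ => hsum0 m)
    linarith
  have hB0 : 0 < B := by linarith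
  refine ⟨min c (1 / B), lt_min hc (by positivity), fun m hm => ?_⟩
  have hm0 : (0 : ℝ) < m := by exact_mod_cast (by omega : 0 < m)
  have hlog1 : 1 < Real.log m := by
    have h1 : Real.exp 1 < 3 := lt_trans Real.exp_one_lt_d9 (by norm_num)
    have h2 : (3 : ℝ) ≤ m := by exact_mod_cast hm
    rw [Real.lt_log_iff_exp_lt hm0]
    linarith
  have hll : 0 < Real.log (Real.log m) := Real.log_pos hlog1
  have hg0 : 0 ≤ g m := by
    simp only [hg]
    positivity
  unfold optDisc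
  refine le_iInf₂ fun ξ hξ => ?_
  rcases Nat.lt_or_ge m m₀ with hlt | hge
  · refine le_trans (ENNReal.ofReal_le_ofReal ?_) (small m (by omega) ξ hξ)
    have h1 : g m * (256 * (m : ℝ)) ≤ B := by
      have := Finset.single_le_sum (f := fun m : ℕ => |g m| * (256 * (m : ℝ)))
        (fun m _ => hsum0 m) (Finset.mem_range.2 hlt)
      have h2 : |g m| = g m := abs_of_nonneg hg0
      simp only [h2] at this
      linarith
    have h2 : min c (1 / B) * g m * (256 * (m : ℝ)) ≤ 1 := by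
      calc min c (1 / B) * g m * (256 * (m : ℝ)) = min c (1 / B) * (g m * (256 * (m : ℝ))) := by ring
        _ ≤ (1 / B) * B := by
            apply mul_le_mul (min_le_right _ _) h1 (by positivity) (by positivity)
        _ = 1 := by field_simp
    have h3 : min c (1 / B) * (Real.log m) ^ (9 / 8 : ℝ) /
        (Real.log (Real.log m)) ^ (1 / 8 : ℝ) / m = min c (1 / B) * g m / m := by
      simp only [hg]
      ring
    rw [h3, div_le_div_iff₀ hm0 (by positivity)]
    nlinarith [h2, hm0]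
  · obtain ⟨n, M, hM, hn1, hn2, hP1, hP2, hV⟩ := H m hge
    have hqpos : 1 ≤ H397R2.SD.qq n M := by
      unfold H397R2.SD.qq
      exact Nat.succ_le_of_lt (Nat.mul_pos (by omega) (by omega))
    have hn0 : 0 < n := by
      have : 0 < 10 ^ 5 * M ^ 3 * H397R2.SD.qq n M := by positivity
      omega
    have hV0 : (0 : ℝ) < Real.sqrt M * n / 200000 := by
      have h1 : (0 : ℝ) < M := by exact_mod_cast (by omega : 0 < M)
      have h2 : (0 : ℝ) < n := by exact_mod_cast hn0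
      have := Real.sqrt_pos.2 h1
      positivity
    have key := H397R2.SD.sup_lower n m (by omega) (Real.sqrt M * n / 200000) hV0
      (fun o u => H397R2.SD.grid_lower n M hM hn1 hn2 Finset.univ o u
        (H397R2.SD.L1_bound (H397R2.SD.sysE n Finset.univ o) M hM hn1 hn2)
        (by simpa using hP1) (by simpa using hP2)) ξ hξ
    refine le_trans (ENNReal.ofReal_le_ofReal ?_) key
    apply div_le_div_of_nonneg_right _ hm0.le
    have h3 : min c (1 / B) * (Real.log m) ^ (9 / 8 : ℝ) /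
        (Real.log (Real.log m)) ^ (1 / 8 : ℝ) = min c (1 / B) * g m := by
      simp only [hg]
      ring
    have h4 : c * (Real.log m) ^ (9 / 8 : ℝ) /
        (Real.log (Real.log m)) ^ (1 / 8 : ℝ) = c * g m := by
      simp only [hg]
      ring
    rw [h4] at hV
    rw [h3]
    exact (mul_le_mul_of_nonneg_right (min_le_left _ _) hg0).trans hV

end Pool.Agent.Results.MP_173de9_an.StarDiscLowerThree
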