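import Pool.Agent.H935R2.PS.Final

set_option autoImplicit false

namespace Pool.Agent.Results.MP_173de9_an.StarDiscPowerThree

open MeasureTheory

/-- The local discrepancy `∏ x_j - (1/m) Σ_μ χ_{[0,x]}(ξ^μ)` of `m` points `ξ` at `x`. -/
noncomputable def localDisc {m d : ℕ} (ξ : Fin m → Fin d → ℝ) (x : Fin d → ℝ) : ℝ :=
  ∏ j, x j - (1 / (m:ℝ)) * ∑ μ : Fin m, (Set.Icc (0 : Fin d → ℝ) x).indicator (fun _ => (1:ℝ)) (ξ μ)

/-- `D(ξ,m,d)_q`: the `L_q` norm of the local discrepancy over `[0,1]^d`. -/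
noncomputable def starDisc (q : ENNReal) {m d : ℕ} (ξ : Fin m → Fin d → ℝ) : ENNReal :=
  eLpNorm (localDisc ξ) q (volume.restrict (Set.Icc (0 : Fin d → ℝ) 1))

/-- `D(m,d)_q`: the infimum over all `m`-point sets (repetitions allowed) in `[0,1]^d`. -/
noncomputable def optDisc (q : ENNReal) (m d : ℕ) : ENNReal :=
  ⨅ (ξ : Fin m → Fin d → ℝ) (_ : ∀ μ, ξ μ ∈ Set.Icc (0 : Fin d → ℝ) 1), starDisc q ξ

/-- In dimension 3 the star discrepancy of the best `m`-point sets is at most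
`C (ln m)^(2 - 1/800) / m` for all `m ≥ 3`. -/
theorem result : ∃ C : ℝ, 0 < C ∧ ∀ m : ℕ, 3 ≤ m →
    optDisc ⊤ m 3 ≤ ENNReal.ofReal (C * (Real.log m) ^ ((2:ℝ) - 1 / 800) / m) := by
  classical
  obtain ⟨C, hC, hfin⟩ := H935R2.PS.Final.star_closed
  refine ⟨C, hC, ?_⟩
  intro m hm
  obtain ⟨ξ, hξ, hb⟩ := hfin m hm
  have hm0 : (0:ℝ) < m := by exact_mod_cast (by omega : 0 < m)
  have hmem : ∀ μ, ξ μ ∈ Set.Icc (0 : Fin 3 → ℝ) 1 := fun μ =>
    ⟨fun j => (hξ μ j).1, fun j => (hξ μ j).2.le⟩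
  refine (iInf₂_le ξ hmem).trans ?_
  unfold starDisc
  rw [eLpNorm_exponent_top]
  apply eLpNormEssSup_le_of_ae_bound
  filter_upwards [ae_restrict_mem measurableSet_Icc] with x hx
  have h1 := hb x (fun j => hx.1 j) (fun j => hx.2 j)
    (Finset.univ.filter (fun μ => ∀ j, ξ μ j ≤ x j)) (fun μ => by
      rw [Finset.mem_filter]
      exact ⟨fun h => h.2, fun h => ⟨Finset.mem_univ _, h⟩⟩)
  have h2 : ∑ μ : Fin m, (Set.Icc (0 : Fin 3 → ℝ) x).indicator (fun _ => (1:ℝ)) (ξ μ) =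
      ((Finset.univ.filter (fun μ => ∀ j, ξ μ j ≤ x j)).card : ℝ) := by
    rw [Finset.card_filter]
    push_cast
    apply Finset.sum_congr rfl
    intro μ _
    rw [Set.indicator_apply]
    by_cases h : ∀ j, ξ μ j ≤ x j
    · rw [if_pos h, if_pos ⟨(hmem μ).1, h⟩]
    · rw [if_neg h, if_neg fun h' => h h'.2]
  have h3 : localDisc ξ x = -((((Finset.univ.filter (fun μ => ∀ j, ξ μ j ≤ x j)).card : ℝ) -
      m * ∏ j, x j) / m) := by
    unfold localDisc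
    rw [h2]
    field_simp
    ring
  rw [h3, norm_neg, Real.norm_eq_abs, abs_div, abs_of_pos hm0]
  exact div_le_div_of_nonneg_right h1 hm0.le

end Pool.Agent.Results.MP_173de9_an.StarDiscPowerThree
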