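import Pool.Agent.H470D4.EndAll
import Pool.Agent.H470D4.Star

set_option autoImplicit false

namespace Pool.Agent.Results.MP_173de9_an.StarDiscUpperAllDim

open MeasureTheory Filter

/-- The local discrepancy `∏ x_j - (1/m) Σ_μ χ_{[0,x]}(ξ^μ)` of `m` points `ξ` at `x`. -/
noncomputable def localDisc {m d : ℕ} (ξ : Fin m → Fin d → ℝ) (x : Fin d → ℝ) : ℝ :=
  ∏ j, x j - (1 / (m:ℝ)) * ∑ μ : Fin m, (Set.Icc (0 : Fin d → ℝ) x).indicator (fun _ => (1:ℝ)) (ξ μ)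

/-- `D(ξ,m,d)_q`: the `L_q` norm of the local discrepancy over `[0,1]^d`. -/
noncomputable def starDisc (q : ENNReal) {m d : ℕ} (ξ : Fin m → Fin d → ℝ) : ENNReal :=
  eLpNorm (localDisc ξ) q (volume.restrict (Set.Icc (0 : Fin d → ℝ) 1))

/-- `D(m,d)_q`: the infimum over all `m`-point sets (repetitions allowed) in `[0,1]^d`. -/
noncomputable def optDisc (q : ENNReal) (m d : ℕ) : ENNReal :=
  ⨅ (ξ : Fin m → Fin d → ℝ) (_ : ∀ μ, ξ μ ∈ Set.Icc (0 : Fin d → ℝ) 1), starDisc q ξ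

/-- In every dimension `d ≥ 3`, `D(m,d)_∞ ≤ C_d (ln m)^{d-1} / (m (ln ln m)^{d-1})` for all
`m ≥ 3`. -/
theorem upper : ∀ d : ℕ, 3 ≤ d → ∃ C : ℝ, 0 < C ∧ ∀ m : ℕ, 3 ≤ m →
    optDisc ⊤ m d ≤
      ENNReal.ofReal (C * (Real.log m) ^ (d - 1) / (m * (Real.log (Real.log m)) ^ (d - 1))) := by
  classical
  intro d hd
  obtain ⟨n, rfl⟩ : ∃ n, d = n + 3 := ⟨d - 3, by omega⟩
  obtain ⟨C, hC, hfin⟩ := H470D4.closed_all_of n (H470D4.star_all n)
  refine ⟨C, hC, ?_⟩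
  intro m hm
  obtain ⟨ξ, hξ, hb⟩ := hfin m hm
  have hm0 : (0:ℝ) < m := by exact_mod_cast (by omega : 0 < m)
  have hmem : ∀ μ, ξ μ ∈ Set.Icc (0 : Fin (n+3) → ℝ) 1 := fun μ =>
    ⟨fun j => (hξ μ j).1, fun j => (hξ μ j).2.le⟩
  refine (iInf₂_le ξ hmem).trans ?_
  unfold starDisc
  rw [eLpNorm_exponent_top]
  apply eLpNormEssSup_le_of_ae_bound
  filter_upwards [ae_restrict_mem measurableSet_Icc] with x hx
  have h1 := hb x (fun j => hx.1 j) (fun j => hx.2 j)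
    (Finset.univ.filter (fun μ => ∀ j, ξ μ j ≤ x j)) (fun μ => by
      rw [Finset.mem_filter]
      exact ⟨fun h => h.2, fun h => ⟨Finset.mem_univ _, h⟩⟩)
  have h2 : ∑ μ : Fin m, (Set.Icc (0 : Fin (n+3) → ℝ) x).indicator (fun _ => (1:ℝ)) (ξ μ) =
      ((Finset.univ.filter (fun μ => ∀ j, ξ μ j ≤ x j)).card : ℝ) := by
    rw [Finset.card_filter]
    push_cast
    apply Finset.sum_congr rfl
    intro μ _
    rw [Set.indicator_apply]
    by_cases h : ∀ j, ξ μ j ≤ x j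
    · rw [if_pos h, if_pos ⟨(hmem μ).1, h⟩]
    · rw [if_neg h, if_neg fun h' => h h'.2]
  have h3 : localDisc ξ x = -((((Finset.univ.filter (fun μ => ∀ j, ξ μ j ≤ x j)).card : ℝ) -
      m * ∏ j, x j) / m) := by
    unfold localDisc
    rw [h2]
    field_simp
    ring
  rw [h3, norm_neg, Real.norm_eq_abs, abs_div, abs_of_pos hm0]
  calc |((Finset.univ.filter (fun μ => ∀ j, ξ μ j ≤ x j)).card : ℝ) - m * ∏ j, x j| / m ≤
      (C * (Real.log m / Real.log (Real.log m)) ^ (n + 2)) / m :=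
        div_le_div_of_nonneg_right h1 hm0.le
    _ = C * (Real.log m) ^ (n + 3 - 1) / (m * (Real.log (Real.log m)) ^ (n + 3 - 1)) := by
        rw [show n + 3 - 1 = n + 2 by omega, div_pow, mul_comm (m:ℝ), ← div_div, mul_div_assoc,
          mul_div_assoc, mul_div_assoc]

/-- In every dimension `d ≥ 3`: `D(m,d)_∞ ≤ C_d (ln m)^{d-1} / (m (ln ln m)^{d-1})` for all `m ≥ 3`;
hence for every `c > 0`, `D(m,d)_∞ < c (ln m)^{d-1} / m` for all large `m`. -/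
theorem result : ∀ d : ℕ, 3 ≤ d →
    (∃ C : ℝ, 0 < C ∧ ∀ m : ℕ, 3 ≤ m →
      optDisc ⊤ m d ≤
        ENNReal.ofReal (C * (Real.log m) ^ (d - 1) / (m * (Real.log (Real.log m)) ^ (d - 1)))) ∧
    (∀ c : ℝ, 0 < c → ∀ᶠ m : ℕ in atTop,
      optDisc ⊤ m d < ENNReal.ofReal (c * (Real.log m) ^ (d - 1) / m)) := by
  intro d hd
  obtain ⟨C, hC, h⟩ := upper d hd
  refine ⟨⟨C, hC, h⟩, ?_⟩
  intro c hc
  have t1 : Tendsto (fun N : ℕ => Real.log (N:ℝ)) atTop atTop :=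
    Real.tendsto_log_atTop.comp tendsto_natCast_atTop_atTop
  have t2 : Tendsto (fun N : ℕ => Real.log (Real.log (N:ℝ))) atTop atTop :=
    Real.tendsto_log_atTop.comp t1
  have t3 : Tendsto (fun N : ℕ => C / (Real.log (Real.log (N:ℝ))) ^ (d - 1)) atTop (nhds 0) := by
    apply Tendsto.div_atTop tendsto_const_nhds
    exact (tendsto_pow_atTop (by omega)).comp t2
  have e1 := t3.eventually (gt_mem_nhds hc)
  have e2 := t1.eventually (eventually_gt_atTop 1)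
  filter_upwards [e1, e2, eventually_ge_atTop 3] with m a1 a2 a3
  have hm0 : (0:ℝ) < m := by exact_mod_cast (by omega : 0 < m)
  have hl : 0 < Real.log (Real.log (m:ℝ)) := Real.log_pos a2
  have hl0 : 0 < Real.log (m:ℝ) := by linarith
  refine lt_of_le_of_lt (h m a3) ?_
  have hpos : 0 < (Real.log (m:ℝ)) ^ (d - 1) / m := by positivity
  rw [ENNReal.ofReal_lt_ofReal_iff (by positivity)]
  calc C * (Real.log m) ^ (d - 1) / (m * (Real.log (Real.log m)) ^ (d - 1))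
      = (C / (Real.log (Real.log (m:ℝ))) ^ (d - 1)) * ((Real.log (m:ℝ)) ^ (d - 1) / m) := by
        rw [div_mul_div_comm, mul_comm (m:ℝ)]
    _ < c * ((Real.log (m:ℝ)) ^ (d - 1) / m) := mul_lt_mul_of_pos_right a1 hpos
    _ = c * (Real.log m) ^ (d - 1) / m := by ring

end Pool.Agent.Results.MP_173de9_an.StarDiscUpperAllDim
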